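import Pool.Agent.Lib.SmN.Cnt.Stmts
import Pool.Agent.Lib.SmN.G.TowerFacts

/-!
# SMITH-U (SmN), block G6: the codes of the cocycles of a twist by a vector of marked primes
-/

set_option autoImplicit false

open Finset

namespace Pool.Agent.SmN

section

variable {G V V1 Pl : Type} [Group G] [AddCommGroup V] [DistribMulAction G V]
  [AddCommGroup V1] [Module (ZMod 2) V1] {S : Sys G V V1 Pl}

theorem Sys.ac_inv_cancel (g : G) (w : V1) : S.ac g (S.ac g⁻¹ w) = w := by
  rw [← LinearEquiv.mul_apply, ← map_mul, mul_inv_cancel, map_one]; rfl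

theorem Sys.ac_cancel_inv (g : G) (w : V1) : S.ac g⁻¹ (S.ac g w) = w := by
  rw [← LinearEquiv.mul_apply, ← map_mul, inv_mul_cancel, map_one]; rfl

theorem Sys.ac_mul (g k : G) (w : V1) : S.ac (g * k) w = S.ac g (S.ac k w) := by
  rw [map_mul, LinearEquiv.mul_apply]

end

namespace CData

variable {G V V1 Pl : Type} [Group G] [AddCommGroup V] [DistribMulAction G V]
  [AddCommGroup V1] [Module (ZMod 2) V1] {S : Sys G V V1 Pl} {X : PSys} {cd : CData S X}

/-! ### One marked prime -/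

theorem fx_iff (x : cd.Mk) (w : V1) :
    cd.Fx x w ↔ S.ac (S.phi (cd.pl x.1)) (S.ac x.2.1⁻¹ w) = S.ac x.2.1⁻¹ w := by
  rw [Fx, phx, Sys.ac_mul, Sys.ac_mul]
  constructor
  · intro h
    have := congrArg (S.ac x.2.1⁻¹) h
    rwa [Sys.ac_cancel_inv] at this
  · intro h
    rw [h, Sys.ac_inv_cancel]

theorem fx_zero (x : cd.Mk) : cd.Fx x 0 := map_zero _

theorem fx_add {x : cd.Mk} {w w' : V1} (h : cd.Fx x w) (h' : cd.Fx x w') : cd.Fx x (w + w') := by
  have h1 : S.ac (cd.phx x) w = w := h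
  have h2 : S.ac (cd.phx x) w' = w' := h'
  change S.ac (cd.phx x) (w + w') = w + w'
  rw [map_add, h1, h2]

theorem fx_smul {x : cd.Mk} {w : V1} (a : ZMod 2) (h : cd.Fx x w) : cd.Fx x (a • w) := by
  have h1 : S.ac (cd.phx x) w = w := h
  change S.ac (cd.phx x) (a • w) = a • w
  rw [map_smul, h1]

theorem bex_coc (hc : cd.Ok) {x : cd.Mk} {w : V1} (h : cd.Fx x w) : S.CocG (cd.bex x w) :=
  hc.be_coc _ _ ((fx_iff x w).1 h)

theorem bex_add (hc : cd.Ok) {x : cd.Mk} {w w' : V1} (h : cd.Fx x w) (h' : cd.Fx x w') :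
    cd.bex x (w + w') = cd.bex x w + cd.bex x w' := by
  have := hc.be_add x.1 _ _ ((fx_iff x w).1 h) ((fx_iff x w').1 h')
  rw [← map_add] at this
  exact this

theorem bex_zero (hc : cd.Ok) (x : cd.Mk) : cd.bex x 0 = 0 := by
  have := bex_add hc (fx_zero x) (fx_zero x)
  rw [add_zero] at this
  exact left_eq_add.mp this

theorem bex_self (hc : cd.Ok) {x : cd.Mk} {w : V1} (h : cd.Fx x w) :
    cd.bex x w (S.sg (cd.pl x.1)) = S.ac x.2.1⁻¹ w :=
  hc.be_self _ _ ((fx_iff x w).1 h)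

theorem bex_unr (hc : cd.Ok) {x : cd.Mk} {w : V1} (h : cd.Fx x w) {Q : X.Pr} (hQ : Q ≠ x.1) :
    cd.bex x w (S.sg (cd.pl Q)) = 0 :=
  hc.be_unr _ _ _ hQ ((fx_iff x w).1 h)

theorem hb_coc (hc : cd.Ok) (c : Fin cd.h → ZMod 2) : S.CocG (cd.hb c) :=
  ((hc.hb_range _).1 ⟨c, rfl⟩).1

theorem hb_unr (hc : cd.Ok) (c : Fin cd.h → ZMod 2) : cd.Unr (cd.hb c) :=
  ((hc.hb_range _).1 ⟨c, rfl⟩).2

/-! ### Vectors -/

variable {J : Type} {p : J → cd.Mk}

theorem valid_zero (p : J → cd.Mk) : cd.ValidN p (0 : cd.CodeN J) := fun j => fx_zero (p j)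

/-- The valid codes. -/
def VF (cd : CData S X) (p : J → cd.Mk) : Submodule (ZMod 2) (cd.CodeN J) where
  carrier := {c | cd.ValidN p c}
  zero_mem' := valid_zero p
  add_mem' := fun ha hb j => fx_add (ha j) (hb j)
  smul_mem' := fun a _ hc j => fx_smul a (hc j)

theorem mem_VF {c : cd.CodeN J} : c ∈ cd.VF p ↔ cd.ValidN p c := Iff.rfl

theorem valid_kap (p : J → cd.Mk) (z : V1) : cd.ValidN p (cd.kapN J z) := fun j => fx_zero (p j)

theorem kapN_add (z z' : V1) : cd.kapN J (z + z') = cd.kapN J z + cd.kapN J z' := by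
  rw [kapN, kapN, kapN, map_add, Prod.mk_add_mk, add_zero]

theorem kapN_zero : cd.kapN J (0 : V1) = 0 := by
  rw [kapN, map_zero]; rfl

theorem kapN_smul (a : ZMod 2) (z : V1) : cd.kapN J (a • z) = a • cd.kapN J z := by
  rw [kapN, kapN, map_smul, Prod.smul_mk, smul_zero]

variable [Fintype J]

theorem homN_zero (hc : cd.Ok) : cd.homN p 0 = 0 := by
  funext s
  rw [homN]
  simp only [Prod.fst_zero, map_zero, Prod.snd_zero, Pi.zero_apply, bex_zero hc,
    Finset.sum_const_zero, add_zero]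

theorem homN_add (hc : cd.Ok) {c c' : cd.CodeN J} (h : cd.ValidN p c) (h' : cd.ValidN p c') :
    cd.homN p (c + c') = cd.homN p c + cd.homN p c' := by
  funext s
  rw [Pi.add_apply, homN, homN, homN, Prod.fst_add, map_add, Pi.add_apply]
  have : ∀ j, cd.bex (p j) ((c + c').2 j) s = cd.bex (p j) (c.2 j) s + cd.bex (p j) (c'.2 j) s := by
    intro j
    have := bex_add hc (h j) (h' j)
    exact congrFun this s
  rw [Finset.sum_congr rfl fun j _ => this j, Finset.sum_add_distrib]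
  abel

theorem homN_kap (hc : cd.Ok) (z : V1) (s : G) : cd.homN p (cd.kapN J z) s = S.ac s z - z := by
  rw [homN, kapN]
  simp only [Pi.zero_apply, bex_zero hc, Finset.sum_const_zero, add_zero, hc.kb_eq]

theorem cocG_sum (hS : S.Ok) {ι : Type} (t : Finset ι) (f : ι → G → V1)
    (hf : ∀ i ∈ t, S.CocG (f i)) : S.CocG (fun s => ∑ i ∈ t, f i s) := by
  classical
  induction t using Finset.induction_on with
  | empty =>
    have := Sys.CocG.zero hS
    refine (congrArg S.CocG ?_).mp this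
    funext s
    rw [Finset.sum_empty]
    rfl
  | insert a t ha ih =>
    have h1 := hf a (Finset.mem_insert_self a t)
    have h2 := ih fun i hi => hf i (Finset.mem_insert_of_mem hi)
    have := Sys.CocG.add hS h1 h2
    refine (congrArg S.CocG ?_).mp this
    funext s
    rw [Finset.sum_insert ha]
    rfl

theorem homN_coc (hS : S.Ok) (hc : cd.Ok) {c : cd.CodeN J} (h : cd.ValidN p c) :
    S.CocG (cd.homN p c) :=
  Sys.CocG.add hS (hb_coc hc c.1)
    (cocG_sum hS univ (fun j => cd.bex (p j) (c.2 j)) fun j _ => bex_coc hc (h j))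

theorem homG_sum (hS : S.Ok) {ι : Type} (t : Finset ι) (f : ι → G → ZMod 2)
    (hf : ∀ i ∈ t, S.HomG (f i)) : S.HomG (fun s => ∑ i ∈ t, f i s) := by
  classical
  induction t using Finset.induction_on with
  | empty =>
    have := Sys.HomG.zero (A := ZMod 2) hS
    refine (congrArg S.HomG ?_).mp this
    funext s
    rw [Finset.sum_empty]
    rfl
  | insert a t ha ih =>
    have h1 := hf a (Finset.mem_insert_self a t)
    have h2 := ih fun i hi => hf i (Finset.mem_insert_of_mem hi)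
    have := Sys.HomG.add hS h1 h2
    refine (congrArg S.HomG ?_).mp this
    funext s
    rw [Finset.sum_insert ha]
    rfl

theorem chiN_hom (hS : S.Ok) (hc : cd.Ok) (p : J → cd.Mk) : S.HomG (cd.chiN p) :=
  Sys.HomG.add hS hc.chi0_hom (homG_sum hS univ (fun j => cd.ch (p j).1) fun j _ => hc.ch_hom _)

theorem chiN_ram (hc : cd.Ok) (hp : cd.PVecN p) (j : J) :
    cd.chiN p (S.sg (cd.pl (p j).1)) = 1 := by
  classical
  rw [chiN, hc.chi0_unr, zero_add, Finset.sum_eq_single j]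
  · exact hc.ch_self _
  · intro j' _ hj'
    exact hc.ch_unr _ _ fun h => hj' (hp h.symm)
  · intro h
    exact absurd (Finset.mem_univ j) h

theorem chiN_unr (hc : cd.Ok) {Q : X.Pr} (hQ : ∀ j, (p j).1 ≠ Q) :
    cd.chiN p (S.sg (cd.pl Q)) = 0 := by
  rw [chiN, hc.chi0_unr, zero_add]
  exact Finset.sum_eq_zero fun j _ => hc.ch_unr _ _ fun h => hQ j h.symm

theorem homN_ram (hc : cd.Ok) (hp : cd.PVecN p) {c : cd.CodeN J} (h : cd.ValidN p c) (j : J) :
    cd.homN p c (S.sg (cd.pl (p j).1)) = S.ac (p j).2.1⁻¹ (c.2 j) := by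
  classical
  rw [homN, hb_unr hc, zero_add, Finset.sum_eq_single j]
  · exact bex_self hc (h j)
  · intro j' _ hj'
    exact bex_unr hc (h j') fun h => hj' (hp h.symm)
  · intro h
    exact absurd (Finset.mem_univ j) h

theorem homN_unr (hc : cd.Ok) {c : cd.CodeN J} (h : cd.ValidN p c) {Q : X.Pr}
    (hQ : ∀ j, (p j).1 ≠ Q) : cd.homN p c (S.sg (cd.pl Q)) = 0 := by
  rw [homN, hb_unr hc, zero_add]
  exact Finset.sum_eq_zero fun j _ => bex_unr hc (h j) fun h => hQ j h.symm

/-- A valid code is determined by its cocycle. -/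
theorem homN_inj_zero (hc : cd.Ok) (hp : cd.PVecN p) {c : cd.CodeN J} (h : cd.ValidN p c)
    (h0 : cd.homN p c = 0) : c = 0 := by
  have h2 : c.2 = 0 := by
    funext j
    have := homN_ram hc hp h j
    rw [h0, Pi.zero_apply] at this
    have h3 := congrArg (S.ac (p j).2.1) this
    rw [Sys.ac_inv_cancel, map_zero] at h3
    exact h3.symm
  have h1 : cd.hb c.1 = 0 := by
    funext s
    have := congrFun h0 s
    rw [homN, h2] at this
    simpa only [Pi.zero_apply, bex_zero hc, Finset.sum_const_zero, add_zero] using this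
  have h3 : c.1 = 0 := hc.hb_inj (h1.trans (map_zero _).symm)
  exact Prod.ext h3 h2

/-- Every cocycle which is unramified outside of the bad places and the entries has a valid code. -/
theorem homN_surj_of (hS : S.Ok) (hc : cd.Ok) (hp : cd.PVecN p) {b : G → V1} (hb : S.CocG b)
    (hun : ∀ Q, (∀ j, (p j).1 ≠ Q) → b (S.sg (cd.pl Q)) = 0) :
    ∃ c : cd.CodeN J, cd.ValidN p c ∧ cd.homN p c = b := by
  classical
  set w : J → V1 := fun j => S.ac (p j).2.1 (b (S.sg (cd.pl (p j).1))) with hw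
  have hval : ∀ j, cd.Fx (p j) (w j) := by
    intro j
    rw [fx_iff, hw]
    simp only [Sys.ac_cancel_inv]
    exact Sys.cp_fix hS (hc.pl_good _) (Sys.loc_mem_CP hb (cd.pl (p j).1))
  have hc0 : cd.ValidN p (0, w) := hval
  have hcoc : S.CocG (cd.homN p (0, w)) := homN_coc hS hc hc0
  have hd : S.CocG (b + cd.homN p (0, w)) := Sys.CocG.add hS hb hcoc
  have hunr : cd.Unr (b + cd.homN p (0, w)) := by
    intro Q
    rw [Pi.add_apply]
    by_cases hQ : ∃ j, (p j).1 = Q
    · obtain ⟨j, rfl⟩ := hQ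
      rw [homN_ram hc hp hc0 j, hw]
      simp only [Sys.ac_cancel_inv]
      exact V1_add_self _
    · push Not at hQ
      rw [homN_unr hc hc0 hQ, add_zero]
      exact hun Q hQ
  obtain ⟨c1, h1⟩ := (hc.hb_range _).2 ⟨hd, hunr⟩
  refine ⟨(c1, w), hval, ?_⟩
  funext s
  have h2 := congrFun h1 s
  rw [homN]
  rw [Pi.add_apply, homN] at h2
  simp only at h2 ⊢
  rw [h2, map_zero, Pi.zero_apply, zero_add, add_assoc, V1_add_self, add_zero]

/-- Every Selmer cocycle has a valid code. -/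
theorem homN_surj (hS : S.Ok) (hc : cd.Ok) (hp : cd.PVecN p) {b : G → V1}
    (hb : S.IsSel1 (cd.chiN p) b) : ∃ c : cd.CodeN J, cd.ValidN p c ∧ cd.homN p c = b := by
  refine homN_surj_of hS hc hp hb.1 fun Q hQ => ?_
  have h1 := hb.2 (cd.pl Q)
  rw [Sys.mem_Wl_good hS (chiN_hom hS hc p) (hc.pl_good Q) (chiN_unr hc hQ)] at h1
  exact h1

theorem mem_FN {c : cd.CodeN J} :
    c ∈ cd.FN p ↔ cd.ValidN p c ∧ S.IsSel1 (cd.chiN p) (cd.homN p c) := Iff.rfl

/-- A point whose coboundary is killed by 2 is killed by 2. -/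
theorem two_of_dl (hS : S.Ok) (hc : cd.Ok) (hp : cd.PVecN p) (j : J) {Q : V}
    (hQ : ∀ s, (2 : ℕ) • dl (cd.chiN p) Q s = 0) : (2 : ℕ) • Q = 0 := by
  have h1 : (2 : ℕ) • ((2 : ℕ) • Q) = 0 := by
    have := hQ (S.sg (cd.pl (p j).1))
    rw [← dl_nsmul, Sys.dl_sg_one hS (hc.pl_good _) (chiN_ram hc hp j), neg_eq_zero] at this
    exact this
  obtain ⟨w, hw⟩ := hS.iota_range _ h1
  have h2 : w = 0 := by
    refine hc.nofix w fun s => ?_
    have := hQ s
    rw [← dl_nsmul, ← hw, Sys.dl_iota hS, Sys.iota_eq_zero hS, sub_eq_zero] at this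
    exact this
  rw [← hw, h2, map_zero]

end CData

end Pool.Agent.SmN
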