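import Pool.Agent.Lib.SmN.G6.Codes
import Pool.Agent.Lib.Sm.G.TowerD
import Pool.Agent.Lib.Sm.G.TowerB

/-!
# SMITH-U (SmN), block G6: the tower of the twist by a vector of marked primes

The tower lives over a submodule `U` of the codes which consists of the valid codes; so the towers of
two vectors with the same valid codes can be compared.
-/

set_option autoImplicit false

open Finset

namespace Pool.Agent.SmN.CData

open Pool.Agent.Sm (Tower Adapted sgR sgR_zero sgR_one)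

variable {G V V1 Pl : Type} [Group G] [AddCommGroup V] [DistribMulAction G V]
  [AddCommGroup V1] [Module (ZMod 2) V1] {S : Sys G V V1 Pl} {X : PSys}

section

variable (cd : CData S X) (h : S.Ok) (hc : cd.Ok) {J : Type} [Fintype J] (p : J → cd.Mk)
  (U : Submodule (ZMod 2) (cd.CodeN J)) (hU : ∀ c, c ∈ U ↔ cd.ValidN p c)

/-- The cocycle of a valid code, as a homomorphism. -/
noncomputable def homU : U →+ (G → V1) where
  toFun c := cd.homN p c.1
  map_zero' := homN_zero hc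
  map_add' c c' := homN_add hc ((hU _).1 c.2) ((hU _).1 c'.2)

/-- The tower of the twist by the vector `p`. -/
noncomputable def twN : Tower U (G → V) where
  Z := S.SelZ h (cd.chiN p)
  T := Sys.Cob (cd.chiN p)
  P := S.PV (cd.chiN p)
  c :=
    { toFun := fun c s => S.iota (cd.homN p c.1 s)
      map_zero' := by
        funext s
        rw [ZeroMemClass.coe_zero, homN_zero hc]
        exact map_zero _
      map_add' := by
        intro c c'
        funext s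
        rw [AddMemClass.coe_add, homN_add hc ((hU _).1 c.2) ((hU _).1 c'.2)]
        exact map_add _ _ _ }
  Fs := AddSubgroup.toZModSubmodule 2
    ((S.Sel1 h (cd.chiN p)).comap (homU cd hc p U hU))

end

variable {cd : CData S X} {J : Type} [Fintype J] {p : J → cd.Mk}
  {U : Submodule (ZMod 2) (cd.CodeN J)}

theorem twN_c (h : S.Ok) (hc : cd.Ok) (hU : ∀ c, c ∈ U ↔ cd.ValidN p c) (c : U) :
    (twN cd h hc p U hU).c c = fun s => S.iota (cd.homN p c.1 s) := rfl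

theorem twN_Z (h : S.Ok) (hc : cd.Ok) (hU : ∀ c, c ∈ U ↔ cd.ValidN p c) (i : ℕ) :
    (twN cd h hc p U hU).Z i = S.SelZ h (cd.chiN p) i := rfl

theorem twN_T (h : S.Ok) (hc : cd.Ok) (hU : ∀ c, c ∈ U ↔ cd.ValidN p c) :
    (twN cd h hc p U hU).T = Sys.Cob (cd.chiN p) := rfl

theorem twN_P (h : S.Ok) (hc : cd.Ok) (hU : ∀ c, c ∈ U ↔ cd.ValidN p c) :
    (twN cd h hc p U hU).P = S.PV (cd.chiN p) := rfl

theorem mem_twN_Fs (h : S.Ok) (hc : cd.Ok) (hU : ∀ c, c ∈ U ↔ cd.ValidN p c) (c : U) :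
    c ∈ (twN cd h hc p U hU).Fs ↔ c.1 ∈ cd.FN p := by
  rw [twN, AddSubgroup.mem_toZModSubmodule]
  exact ⟨fun hh => ⟨(hU _).1 c.2, hh⟩, fun hh => hh.2⟩

/-- The codes of the Selmer group lie in `U`. -/
theorem FN_le (hU : ∀ c, c ∈ U ↔ cd.ValidN p c) {c : cd.CodeN J} (hF : c ∈ cd.FN p) : c ∈ U :=
  (hU c).2 hF.1

theorem kap_mem_U (hU : ∀ c, c ∈ U ↔ cd.ValidN p c) (z : V1) : cd.kapN J z ∈ U :=
  (hU _).2 (valid_kap p z)

/-- The tower of the twist satisfies all axioms. -/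
theorem twN_ok (h : S.Ok) (hc : cd.Ok) (hU : ∀ c, c ∈ U ↔ cd.ValidN p c) (hp : cd.PVecN p) :
    (twN cd h hc p U hU).Ok where
  fin := by
    have := h.fin1
    infer_instance
  zero := Sys.SelZ_zero h _
  mono := Sys.SelZ_le_succ h _
  lev := fun _ _ hm => Sys.SelZ_pow h _ hm
  low := fun _ _ hm h0 => Sys.SelZ_of_pow h _ hm h0
  addl := fun _ _ hm _ hm' _ hb => Sys.PV_add_left h (chiN_hom h hc p) hm hm' hb
  addr := fun _ _ hm _ hb _ hb' => Sys.PV_add_right h (chiN_hom h hc p) hm hb hb'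
  crit := fun _ _ hm => Sys.PV_crit h (chiN_hom h hc p) hm
  ttor := fun _ ht => Sys.Cob_tors h ht
  tdiv := fun _ ht => Sys.Cob_half h ht
  tlev := fun _ _ ht h0 => Sys.Cob_SelZ h (chiN_hom h hc p) ht h0
  cinj := by
    rw [injective_iff_map_eq_zero]
    intro a ha
    apply Subtype.ext
    refine homN_inj_zero hc hp ((hU _).1 a.2) ?_
    funext s
    exact (Sys.iota_eq_zero h).1 (congrFun ha s)
  crange := by
    intro m
    constructor
    · intro hm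
      have h1 := Sys.isSel_un h hm
      obtain ⟨c, hv, hcc⟩ := homN_surj h hc hp h1
      refine ⟨⟨c, (hU c).2 hv⟩, (mem_twN_Fs h hc hU _).mpr ⟨hv, by rw [hcc]; exact h1⟩, ?_⟩
      rw [twN_c]
      funext s
      rw [hcc]
      refine Sys.iota_un h ?_
      have := (show S.IsSel (cd.chiN p) 1 m from hm).lev s
      rwa [pow_one] at this
    · rintro ⟨a, ha, rfl⟩
      exact Sys.isSel_iota h (chiN_hom h hc p) ((mem_twN_Fs h hc hU a).mp ha).2

/-! ### The torsion codes -/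

theorem mem_twN_Kp [Nonempty J] (h : S.Ok) (hc : cd.Ok) (hU : ∀ c, c ∈ U ↔ cd.ValidN p c)
    (hp : cd.PVecN p) (a : U) :
    a ∈ (twN cd h hc p U hU).Kp ↔ ∃ z, a.1 = cd.kapN J z := by
  obtain ⟨j⟩ := (inferInstance : Nonempty J)
  rw [Tower.mem_Kp, twN_T, Sys.mem_Cob, twN_c]
  constructor
  · rintro ⟨Q, hQ⟩
    have h2 : (2 : ℕ) • Q = 0 := by
      refine two_of_dl h hc hp j fun s => ?_
      rw [← congrFun hQ s]
      exact Sys.two_iota S _
    obtain ⟨z, hz⟩ := h.iota_range _ h2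
    refine ⟨z, ?_⟩
    have hv : cd.ValidN p (a.1 + cd.kapN J z) :=
      (cd.VF p).add_mem ((hU _).1 a.2) (valid_kap p z)
    have h3 : a.1 + cd.kapN J z = 0 := by
      refine homN_inj_zero hc hp hv ?_
      rw [homN_add hc ((hU _).1 a.2) (valid_kap p z)]
      funext s
      rw [Pi.add_apply, Pi.zero_apply, homN_kap hc]
      have h4 : cd.homN p a.1 s = S.ac s z - z := by
        apply h.iota_inj
        rw [congrFun hQ s, ← hz, Sys.dl_iota h]
      rw [h4, V1_add_self]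
    have h5 : a.1 + cd.kapN J z + cd.kapN J z = cd.kapN J z := by rw [h3, zero_add]
    rwa [add_assoc, ← kapN_add, V1_add_self, kapN_zero, add_zero] at h5
  · rintro ⟨z, hz⟩
    refine ⟨S.iota z, funext fun s => ?_⟩
    rw [hz, homN_kap hc, Sys.dl_iota h]

theorem card_twN_Kp [Nonempty J] (h : S.Ok) (hc : cd.Ok) (hU : ∀ c, c ∈ U ↔ cd.ValidN p c)
    (hp : cd.PVecN p) : Nat.card (twN cd h hc p U hU).Kp ≤ Nat.card V1 := by
  have := h.fin1
  have hs : Function.Surjective (fun z : V1 => (⟨⟨cd.kapN J z, kap_mem_U hU z⟩,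
      (mem_twN_Kp h hc hU hp _).mpr ⟨z, rfl⟩⟩ : (twN cd h hc p U hU).Kp)) := by
    rintro ⟨⟨a, haU⟩, ha⟩
    obtain ⟨z, rfl⟩ := (mem_twN_Kp h hc hU hp _).mp ha
    exact ⟨z, rfl⟩
  exact Nat.card_le_card_of_surjective _ hs

/-! ### Translation of the definitions of `Cnt/Stmts.lean` -/

theorem twN_PV (h : S.Ok) (hc : cd.Ok) (hU : ∀ c, c ∈ U ↔ cd.ValidN p c) (m : G → V) (b : U) :
    (twN cd h hc p U hU).P m ((twN cd h hc p U hU).c b) = S.CT (cd.chiN p) m (cd.homN p b.1) := by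
  rw [twN_P, twN_c, Sys.PV]
  simp only [Sys.un_iota h]

theorem abvN_iff (h : S.Ok) (hc : cd.Ok) (hU : ∀ c, c ∈ U ↔ cd.ValidN p c) {i : ℕ} {a : U}
    {Psi : G → V} : cd.AbvN p i a.1 Psi ↔
    Psi ∈ (twN cd h hc p U hU).Z i ∧ (2 : ℕ) ^ (i - 1) • Psi = (twN cd h hc p U hU).c a := by
  rw [AbvN, twN_Z, Sys.mem_SelZ, twN_c]
  exact and_congr_right fun _ => ⟨fun h2 => funext h2, fun h2 s => congrFun h2 s⟩

open Classical in
/-- Extension by `0` of a function on `U`. -/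
noncomputable def extU (U : Submodule (ZMod 2) (cd.CodeN J)) (f : U → ZMod 2)
    (c : cd.CodeN J) : ZMod 2 := if hh : c ∈ U then f ⟨c, hh⟩ else 0

omit [Fintype J] in
theorem extU_mem (f : U → ZMod 2) (c : U) : extU U f c.1 = f c := by
  rw [extU, dif_pos c.2]

omit [Fintype J] in
theorem extU_inj {f g : U → ZMod 2} (hfg : extU U f = extU U g) : f = g := by
  funext c
  rw [← extU_mem f c, hfg, extU_mem g c]

omit [Fintype J] in
theorem extU_zero : extU U (0 : U → ZMod 2) = 0 := by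
  funext c
  rw [extU]
  split_ifs <;> rfl

theorem mem_LamN_iff (h : S.Ok) (hc : cd.Ok) (hU : ∀ c, c ∈ U ↔ cd.ValidN p c) (hp : cd.PVecN p)
    {i : ℕ} (hi : 1 ≤ i) (y : cd.CodeN J × (cd.CodeN J → ZMod 2)) :
    y ∈ cd.LamN p i ↔ ∃ y' ∈ (twN cd h hc p U hU).Lam i, y.1 = y'.1.1 ∧ y.2 = extU U y'.2 := by
  constructor
  · rintro ⟨hy, Psi, hA, h1, h2⟩
    have hyU : y.1 ∈ U := FN_le hU hy
    obtain ⟨h3, h4⟩ := (abvN_iff h hc hU (a := ⟨y.1, hyU⟩)).mp hA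
    refine ⟨(⟨y.1, hyU⟩, fun c => y.2 c.1), ⟨Psi, h3, h4, ?_⟩, rfl, ?_⟩
    · refine Tower.ev_eq_iff.mpr ⟨fun b hb => ?_, fun b hb => ?_⟩
      · rw [twN_PV]
        exact h1 b.1 ((mem_twN_Fs h hc hU b).mp hb)
      · exact h2 b.1 fun hb' => hb ((mem_twN_Fs h hc hU b).mpr hb')
    · funext c
      by_cases hcU : c ∈ U
      · exact (extU_mem (fun c : U => y.2 c.1) ⟨c, hcU⟩).symm
      · rw [extU, dif_neg hcU]
        exact h2 c fun hF => hcU (FN_le hU hF)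
  · rintro ⟨y', hy', e1, e2⟩
    have hF := Tower.lam_fst (twN_ok h hc hU hp) hi hy'
    obtain ⟨Psi, h3, h4, h5⟩ := hy'
    obtain ⟨h6, h7⟩ := Tower.ev_eq_iff.mp h5
    refine ⟨?_, Psi, ?_, fun c hcF => ?_, fun c hcF => ?_⟩
    · rw [e1]
      exact (mem_twN_Fs h hc hU _).mp hF
    · rw [e1]
      exact (abvN_iff h hc hU).mpr ⟨h3, h4⟩
    · have hcU : c ∈ U := FN_le hU hcF
      rw [e2]
      have := h6 ⟨c, hcU⟩ ((mem_twN_Fs h hc hU _).mpr hcF)
      rw [twN_PV] at this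
      rw [← this]
      exact extU_mem y'.2 ⟨c, hcU⟩
    · rw [e2]
      by_cases hcU : c ∈ U
      · rw [show extU U y'.2 c = y'.2 ⟨c, hcU⟩ from extU_mem y'.2 ⟨c, hcU⟩]
        exact h7 ⟨c, hcU⟩ fun hb => hcF ((mem_twN_Fs h hc hU _).mp hb)
      · rw [extU, dif_neg hcU]

/-- The relations of two towers over the same submodule agree iff the sets `LamN` agree. -/
theorem LamN_congr (h : S.Ok) (hc : cd.Ok) (hU : ∀ c, c ∈ U ↔ cd.ValidN p c) (hp : cd.PVecN p)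
    {p' : J → cd.Mk} (hU' : ∀ c, c ∈ U ↔ cd.ValidN p' c) (hp' : cd.PVecN p') {i : ℕ}
    (hi : 1 ≤ i) :
    cd.LamN p i = cd.LamN p' i ↔ (twN cd h hc p U hU).Lam i = (twN cd h hc p' U hU').Lam i := by
  have key : ∀ {p p' : J → cd.Mk} (hU : ∀ c, c ∈ U ↔ cd.ValidN p c) (hp : cd.PVecN p)
      (hU' : ∀ c, c ∈ U ↔ cd.ValidN p' c) (hp' : cd.PVecN p'), cd.LamN p i = cd.LamN p' i →
      (twN cd h hc p U hU).Lam i ⊆ (twN cd h hc p' U hU').Lam i := by
    intro p p' hU hp hU' hp' he y hy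
    have h1 : (y.1.1, extU U y.2) ∈ cd.LamN p i :=
      (mem_LamN_iff h hc hU hp hi _).2 ⟨y, hy, rfl, rfl⟩
    rw [he] at h1
    obtain ⟨y', hy', e1, e2⟩ := (mem_LamN_iff h hc hU' hp' hi _).1 h1
    have : y = y' := Prod.ext (Subtype.ext e1) (extU_inj e2)
    rwa [this]
  constructor
  · intro he
    exact Set.Subset.antisymm (key hU hp hU' hp' he) (key hU' hp' hU hp he.symm)
  · intro he
    ext y
    rw [mem_LamN_iff h hc hU hp hi, mem_LamN_iff h hc hU' hp' hi, he]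

/-- The flags are the `L i` of the tower. -/
theorem mem_LflN_iff_tw (h : S.Ok) (hc : cd.Ok) (hU : ∀ c, c ∈ U ↔ cd.ValidN p c)
    (hp : cd.PVecN p) {i : ℕ} (hi : 1 ≤ i) (a : U) :
    a.1 ∈ cd.LflN (cd.FN p) (cd.LamN p) i ↔ a ∈ (twN cd h hc p U hU).L i := by
  obtain ⟨i, rfl⟩ := Nat.exists_eq_add_of_le' hi
  cases i with
  | zero =>
    change a.1 ∈ cd.FN p ↔ _
    rw [Tower.L_one (twN_ok h hc hU hp), mem_twN_Fs]
  | succ i =>
    change (a.1, 0) ∈ cd.LamN p (i + 1) ↔ _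
    rw [mem_LamN_iff h hc hU hp (Nat.succ_le_succ (Nat.zero_le i)),
      ← Tower.lam_zero_right (twN_ok h hc hU hp) (Nat.succ_le_succ (Nat.zero_le i))]
    constructor
    · rintro ⟨y', hy', e1, e2⟩
      have e3 : y'.2 = 0 := extU_inj (e2.symm.trans extU_zero.symm)
      have e4 : y' = (a, 0) := Prod.ext (Subtype.ext e1.symm) e3
      rwa [e4] at hy'
    · intro hy
      exact ⟨(a, 0), hy, rfl, extU_zero.symm⟩

theorem LflN_sub_FN (h : S.Ok) (hc : cd.Ok) (hU : ∀ c, c ∈ U ↔ cd.ValidN p c)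
    (hp : cd.PVecN p) {i : ℕ} (hi : 1 ≤ i) :
    cd.LflN (cd.FN p) (cd.LamN p) i ⊆ cd.FN p := by
  obtain ⟨i, rfl⟩ := Nat.exists_eq_add_of_le' hi
  cases i with
  | zero => exact fun _ ha => ha
  | succ i => exact fun a ha => (show (a, 0) ∈ cd.LamN p (i + 1) from ha).1

theorem card_LflN (h : S.Ok) (hc : cd.Ok) (hU : ∀ c, c ∈ U ↔ cd.ValidN p c)
    (hp : cd.PVecN p) {i : ℕ} (hi : 1 ≤ i) :
    Nat.card (cd.LflN (cd.FN p) (cd.LamN p) i) = Nat.card ((twN cd h hc p U hU).L i) := by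
  refine Nat.card_congr
    { toFun := fun a => ⟨⟨a.1, FN_le hU (LflN_sub_FN h hc hU hp hi a.2)⟩,
        (mem_LflN_iff_tw h hc hU hp hi ⟨a.1, _⟩).1 a.2⟩
      invFun := fun a => ⟨a.1.1, (mem_LflN_iff_tw h hc hU hp hi a.1).2 a.2⟩
      left_inv := fun a => rfl
      right_inv := fun a => rfl }

/-- (a) `a` lies in `L i` iff there is a Selmer cocycle of level `i` above `a`. -/
theorem mem_LflN_iff (h : S.Ok) (hc : cd.Ok) (hU : ∀ c, c ∈ U ↔ cd.ValidN p c)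
    (hp : cd.PVecN p) {i : ℕ} (hi : 1 ≤ i) (a : U) :
    a.1 ∈ cd.LflN (cd.FN p) (cd.LamN p) i ↔ ∃ Psi, cd.AbvN p i a.1 Psi := by
  rw [mem_LflN_iff_tw h hc hU hp hi, Tower.mem_L]
  exact exists_congr fun Psi => (abvN_iff h hc hU).symm

theorem perpN_iff (h : S.Ok) (hc : cd.Ok) (hU : ∀ c, c ∈ U ↔ cd.ValidN p c)
    (hp : cd.PVecN p) (i : ℕ) (b : U) (hb : b.1 ∈ cd.FN p) :
    cd.PerpN (cd.LamN p) i b.1 ↔ (twN cd h hc p U hU).Perp i b := by
  have hb' := (mem_twN_Fs h hc hU b).mpr hb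
  rcases Nat.eq_zero_or_pos i with rfl | hi
  · rw [Tower.perp_zero (twN_ok h hc hU hp)]
    exact ⟨fun _ => hb', fun _ h0 => absurd h0 (by omega)⟩
  · rw [Tower.perp_iff_lam (twN_ok h hc hU hp) hi]
    constructor
    · intro hP
      refine ⟨hb', fun y hy => ?_⟩
      have := hP hi (y.1.1, extU U y.2) ((mem_LamN_iff h hc hU hp hi _).2 ⟨y, hy, rfl, rfl⟩)
      exact (extU_mem y.2 b).symm.trans this
    · rintro ⟨_, hP⟩ _ y hy
      obtain ⟨y', hy', e1, e2⟩ := (mem_LamN_iff h hc hU hp hi y).1 hy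
      rw [e2, extU_mem]
      exact hP y' hy'

/-- `b` is perpendicular to level `i` iff it pairs to zero with all Selmer cocycles of level `i`. -/
theorem perpN_iff_CT (h : S.Ok) (hc : cd.Ok) (hU : ∀ c, c ∈ U ↔ cd.ValidN p c)
    (hp : cd.PVecN p) (i : ℕ) (b : U) (hb : b.1 ∈ cd.FN p) :
    cd.PerpN (cd.LamN p) i b.1 ↔
      ∀ Psi, S.IsSel (cd.chiN p) i Psi → S.CT (cd.chiN p) Psi (cd.homN p b.1) = 0 := by
  rw [perpN_iff h hc hU hp i b hb]
  constructor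
  · rintro ⟨_, hP⟩ Psi hPsi
    rw [← twN_PV h hc hU]
    exact hP Psi hPsi
  · intro hP
    refine ⟨(mem_twN_Fs h hc hU b).mpr hb, fun m hm => ?_⟩
    rw [twN_PV h hc hU]
    exact hP m hm

/-- `F_ab` does not depend on the choice of the cocycle. -/
theorem FFN_eq (h : S.Ok) (hc : cd.Ok) (hU : ∀ c, c ∈ U ↔ cd.ValidN p c)
    (hp : cd.PVecN p) {m : ℕ} (hm : 1 ≤ m) (a b : U) (hb : b.1 ∈ cd.FN p)
    (hP : cd.PerpN (cd.LamN p) (m - 1) b.1) {Psi : G → V} (hA : cd.AbvN p m a.1 Psi) :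
    cd.FFN p m a.1 b.1 = S.CT (cd.chiN p) Psi (cd.homN p b.1) := by
  have hex : ∃ Psi : G → V, cd.AbvN p m a.1 Psi := ⟨Psi, hA⟩
  rw [FFN, dif_pos hex]
  have h1 := (abvN_iff h hc hU).mp hA
  have h2 := (abvN_iff h hc hU).mp hex.choose_spec
  have hP' := (perpN_iff h hc hU hp _ b hb).mp hP
  rw [← twN_PV h hc hU, ← twN_PV h hc hU, ← Tower.fab_eq (twN_ok h hc hU hp) hm hP' h1.1 h1.2,
    ← Tower.fab_eq (twN_ok h hc hU hp) hm hP' h2.1 h2.2]

theorem FFN_eq_Fab (h : S.Ok) (hc : cd.Ok) (hU : ∀ c, c ∈ U ↔ cd.ValidN p c)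
    (hp : cd.PVecN p) {m : ℕ} (hm : 1 ≤ m) (a b : U)
    (ha : a.1 ∈ cd.LflN (cd.FN p) (cd.LamN p) m) (hb : b.1 ∈ cd.FN p)
    (hP : cd.PerpN (cd.LamN p) (m - 1) b.1) :
    cd.FFN p m a.1 b.1 = (twN cd h hc p U hU).Fab m a b := by
  obtain ⟨Psi, hA⟩ := (mem_LflN_iff h hc hU hp hm a).mp ha
  have h1 := (abvN_iff h hc hU).mp hA
  rw [FFN_eq h hc hU hp hm a b hb hP hA, ← twN_PV h hc hU, Tower.fab_eq (twN_ok h hc hU hp) hm
    ((perpN_iff h hc hU hp _ b hb).mp hP) h1.1 h1.2]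

theorem indep2N_iff [Nonempty J] (h : S.Ok) (hc : cd.Ok) (hU : ∀ c, c ∈ U ↔ cd.ValidN p c)
    (hp : cd.PVecN p) (a b : U) :
    cd.Indep2N a.1 b.1 ↔ (twN cd h hc p U hU).Ind a b := by
  have hz : ∀ x : ZMod 2, x = 0 ∨ x = 1 := by decide
  rw [Tower.Ind, mem_twN_Kp h hc hU hp, mem_twN_Kp h hc hU hp, mem_twN_Kp h hc hU hp]
  constructor
  · intro hI
    refine ⟨?_, ?_, ?_⟩
    · rintro ⟨w, hw⟩
      have := (hI 1 0 w (by rw [one_smul, zero_smul, add_zero, hw])).1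
      exact one_ne_zero this
    · rintro ⟨w, hw⟩
      have := (hI 0 1 w (by rw [one_smul, zero_smul, zero_add, hw])).2
      exact one_ne_zero this
    · rintro ⟨w, hw⟩
      have hw' : b.1 + a.1 = cd.kapN J w := hw
      have := (hI 1 1 w (by rw [one_smul, one_smul, add_comm, hw'])).2
      exact one_ne_zero this
  · rintro ⟨h1, h2, h3⟩ x y w hw
    rcases hz x with rfl | rfl <;> rcases hz y with rfl | rfl
    · exact ⟨rfl, rfl⟩
    · rw [one_smul, zero_smul, zero_add] at hw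
      exact absurd ⟨w, hw⟩ h2
    · rw [one_smul, zero_smul, add_zero] at hw
      exact absurd ⟨w, hw⟩ h1
    · rw [one_smul, one_smul, add_comm] at hw
      exact absurd ⟨w, hw⟩ h3

/-! ### Cardinalities -/

theorem card_nZN (h : S.Ok) (hc : cd.Ok) (hU : ∀ c, c ∈ U ↔ cd.ValidN p c) (i : ℕ) :
    cd.nZN p i = Nat.card ((twN cd h hc p U hU).Z i) := rfl

open Classical in
theorem recursionN [Nonempty J] (h : S.Ok) (hc : cd.Ok) (hU : ∀ c, c ∈ U ↔ cd.ValidN p c)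
    (hp : cd.PVecN p) {i : ℕ} (hi : 1 ≤ i) :
    (cd.nZN p (i + 1) : ℝ) ≤ 3 * Nat.card V1 * cd.nZN p i +
    cd.nZN p (i - 1) * ∑ᶠ ab : cd.CodeN J × cd.CodeN J,
      if ab.1 ∈ cd.LflN (cd.FN p) (cd.LamN p) i ∧ ab.2 ∈ cd.FN p ∧ cd.Indep2N ab.1 ab.2 ∧
        cd.PerpN (cd.LamN p) (i - 1) ab.2 then (-1 : ℝ) ^ (cd.FFN p i ab.1 ab.2).val else 0 := by
  have := h.fin1
  have := Fintype.ofFinite U
  have := Fintype.ofFinite (cd.CodeN J)
  refine (Tower.recursionK (twN_ok h hc hU hp) hi (card_twN_Kp h hc hU hp)).trans (le_of_eq ?_)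
  rw [card_nZN h hc hU, card_nZN h hc hU]
  congr 1
  congr 1
  rw [finsum_eq_sum_of_fintype, ← Finset.sum_product', Finset.univ_product_univ]
  refine Finset.sum_of_injOn (fun ab => (ab.1.1, ab.2.1)) ?_ ?_ ?_ ?_
  · intro x _ y _ hxy
    simp only [Prod.mk.injEq] at hxy
    exact Prod.ext (Subtype.ext hxy.1) (Subtype.ext hxy.2)
  · intro x _
    simp
  · intro y _ hy
    rw [if_neg]
    rintro ⟨h1, h2, -, -⟩
    apply hy
    refine ⟨(⟨y.1, FN_le hU (LflN_sub_FN h hc hU hp hi h1)⟩, ⟨y.2, FN_le hU h2⟩), by simp, rfl⟩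
  · rintro ⟨a, b⟩ _
    simp only
    by_cases hb : b.1 ∈ cd.FN p
    · simp only [mem_LflN_iff_tw h hc hU hp hi, hb, true_and, indep2N_iff h hc hU hp,
        perpN_iff h hc hU hp _ b hb]
      split_ifs with h1
      · rw [FFN_eq_Fab h hc hU hp hi a b ((mem_LflN_iff_tw h hc hU hp hi a).mpr h1.1) hb
          ((perpN_iff h hc hU hp _ b hb).mpr h1.2.2)]
        have hz : ∀ x : ZMod 2, x = 0 ∨ x = 1 := by decide
        rcases hz ((twN cd h hc p U hU).Fab i a b) with h0 | h0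
        · rw [h0, sgR_zero]; simp
        · rw [h0, sgR_one]
          have : (1 : ZMod 2).val = 1 := rfl
          rw [this, pow_one]
      · rfl
    · rw [if_neg, if_neg]
      · exact fun hh => hb hh.2.1
      · exact fun hh => hb ((mem_twN_Fs h hc hU b).mp hh.2.2.1)

/-! ### The adapted basis -/

theorem exists_basisN [Nonempty J] (h : S.Ok) (hc : cd.Ok) (hU : ∀ c, c ∈ U ↔ cd.ValidN p c)
    (hp : cd.PVecN p) {m : ℕ} (hm : 1 ≤ m) (a b : U)
    (ha : a.1 ∈ cd.LflN (cd.FN p) (cd.LamN p) m) (hb : b.1 ∈ cd.FN p)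
    (hI : cd.Indep2N a.1 b.1) :
    Nonempty (cd.BasN (cd.FN p) (cd.LflN (cd.FN p) (cd.LamN p)) m a.1 b.1) := by
  obtain ⟨r, cc, la, lb, β, had, h1, h2, h3, h4, h5⟩ :=
    Tower.exists_basis (twN_ok h hc hU hp) hm
    ((mem_LflN_iff_tw h hc hU hp hm a).mp ha) ((mem_twN_Fs h hc hU b).mpr hb)
    ((indep2N_iff h hc hU hp a b).mp hI)
  have hcoe : ∀ α : Fin r → ZMod 2, ((∑ l, α l • cc l : U) : cd.CodeN J) = ∑ l, α l • (cc l).1 := by
    intro α
    rw [Submodule.coe_sum]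
    rfl
  have hsp : ∀ x ∈ cd.FN p, ∃ (α : Fin r → ZMod 2) (z : V1),
      x = cd.kapN J z + ∑ l, α l • (cc l).1 := by
    intro x hx
    have hxU := FN_le hU hx
    obtain ⟨α, hα⟩ := had.span ⟨x, hxU⟩ ((mem_twN_Fs h hc hU ⟨x, hxU⟩).mpr hx)
    obtain ⟨z, hz⟩ := (mem_twN_Kp h hc hU hp _).mp hα
    refine ⟨α, z, ?_⟩
    rw [← hz, ← hcoe]
    change x = (x - _) + _
    rw [sub_add_cancel]
  refine ⟨⟨r, fun l => (cc l).1, la, lb, h5.symm, by rw [h1],
    fun l => (mem_twN_Fs h hc hU _).mp (had.mem l), hsp, ?_, ?_, β, ?_, h3, h4⟩⟩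
  · intro α z hα
    refine had.indep α ((mem_twN_Kp h hc hU hp _).mpr ⟨z, ?_⟩)
    rw [hcoe]
    exact hα
  · intro i hi him x hx
    obtain ⟨α, z, hxe⟩ := hsp x (LflN_sub_FN h hc hU hp hi hx)
    refine ⟨α, z, hxe, fun l hl => ?_⟩
    have hxU := FN_le hU (LflN_sub_FN h hc hU hp hi hx)
    rw [mem_LflN_iff_tw h hc hU hp hi]
    refine had.adapt i hi him α ?_ l hl
    have e : ∑ l, α l • cc l = (⟨x, hxU⟩ : U) - ⟨cd.kapN J z, kap_mem_U hU z⟩ := by
      apply Subtype.ext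
      rw [hcoe]
      change _ = x - cd.kapN J z
      rw [hxe, add_sub_cancel_left]
    rw [e]
    exact Submodule.sub_mem _ ((mem_LflN_iff_tw h hc hU hp hi ⟨x, hxU⟩).mp hx)
      (Tower.kp_le_L (twN_ok h hc hU hp) hi ((mem_twN_Kp h hc hU hp _).mpr ⟨z, rfl⟩))
  · rw [h2, hcoe]

end Pool.Agent.SmN.CData
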